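import Pool.Agent.helper88.SJ.Y2Spec

/-!
# s5:YDF: if all eigenspaces are definite, the new part is of CM type
-/

namespace Pool.Agent.S5

open scoped ComplexConjugate TensorProduct Matrix Topology ComplexOrder ENNReal
open Filter MeasureTheory
open Pool.Agent.HC Pool.Agent.HC.SJ Pool.Agent.SJ

/-- powers of `ζ` as values of the standard character -/
theorem YDF_zt (d : ℕ) [NeZero d] (z : ℕ) : zt d ^ z = ZMod.stdAddChar (z : ZMod d) := by
  have h : ((z : ℤ) : ZMod d) = (z : ZMod d) := by push_cast; rfl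
  rw [← h, ZMod.stdAddChar_coe, zt, ← Complex.exp_nat_mul]
  congr 1
  push_cast
  ring

/-- iterates of `zact` -/
theorem YDF_iter (d : ℕ) {n : ℕ} (μ : Fin (n + 1) → ℕ) (b : Fin (n + 1) → ℂ) (L : AddSubgroup (WA d μ))
    (hL : IsJac d μ b L) (m : ℕ) (w : WA d μ) (hw : w ∈ L) :
    (fun i : Idx d μ => zt d ^ ((i.r : ℕ) * m) * w i) ∈ L := by
  induction m with
  | zero => simpa using hw
  | succ m ih =>
    have h := hL.stab _ ih
    have e : zact d μ (zt d) (fun i : Idx d μ => zt d ^ ((i.r : ℕ) * m) * w i) =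
        fun i : Idx d μ => zt d ^ ((i.r : ℕ) * (m + 1)) * w i := by
      funext i
      show zt d ^ (i.r : ℕ) * (zt d ^ ((i.r : ℕ) * m) * w i) = _
      rw [mul_add, mul_one, pow_add]
      ring
    rw [e] at h
    exact h

theorem YDF (hQC : SJ3.QC_stmt) (hQH : SJ3.QH_stmt) (hWPN : WPN_stmt) : YDF_stmt := by
  intro d n μ b hP hdef L hL
  obtain ⟨hpn, hidx, -⟩ := hWPN d n μ hP
  have hd : 3 ≤ d := hP.d3
  have : NeZero d := ⟨by omega⟩
  let I' : Type := {r : Un d // pn d μ (r.1 : ℕ) ≠ 0}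
  have hfin : Finite I' := inferInstance
  have : Fintype I' := Fintype.ofFinite _
  let χ : I' → (Multiplicative (ZMod d) →* ℂ) := fun i =>
    { toFun := fun g => ZMod.stdAddChar (((i.1.1 : ℕ) : ZMod d) * Multiplicative.toAdd g)
      map_one' := by
        rw [toAdd_one, mul_zero, AddChar.map_zero_eq_one]
      map_mul' := fun g g' => by
        rw [toAdd_mul, mul_add, AddChar.map_add_eq_mul] }
  have hχ : ∀ i (a : ZMod d), χ i (Multiplicative.ofAdd a) =
      ZMod.stdAddChar (((i.1.1 : ℕ) : ZMod d) * a) := fun i a => rfl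
  obtain ⟨q, hq⟩ := hQH (Multiplicative (ZMod d)) I' χ (by
    intro i i' h
    have h1 : χ i (Multiplicative.ofAdd 1) = χ i' (Multiplicative.ofAdd 1) := by rw [h]
    rw [hχ, hχ, mul_one, mul_one] at h1
    have h2 := ZMod.injective_stdAddChar h1
    rw [ZMod.natCast_eq_natCast_iff'] at h2
    rw [Nat.mod_eq_of_lt i.1.1.2, Nat.mod_eq_of_lt i'.1.1.2] at h2
    exact Subtype.ext (Subtype.ext (Fin.ext h2))) (by
    intro i i'
    refine ⟨Multiplicative.ofAdd 1, fun h => ?_⟩
    rw [hχ, hχ, mul_one, mul_one, ← AddChar.map_neg_eq_conj] at h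
    have h2 := ZMod.injective_stdAddChar h
    have h3 : (((i.1.1 : ℕ) + (i'.1.1 : ℕ) : ℕ) : ZMod d) = 0 := by
      push_cast
      rw [h2, neg_add_cancel]
    rw [ZMod.natCast_eq_zero_iff] at h3
    have h4 := i.1.1.2
    have h5 := i'.1.1.2
    have h6 : 0 < (i.1.1 : ℕ) := by
      rcases Nat.eq_zero_or_pos (i.1.1 : ℕ) with h | h
      · have h1 := i.1.2
        rw [h, Nat.coprime_zero_left] at h1
        omega
      · exact h
    obtain ⟨c, hc⟩ := h3
    have h7 : c = 1 := by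
      have h8 : c < 2 := by
        by_contra h
        have : d * 2 ≤ d * c := Nat.mul_le_mul_left d (by omega)
        omega
      have h9 : 0 < c := by
        rcases Nat.eq_zero_or_pos c with h | h
        · rw [h] at hc
          omega
        · exact h
      omega
    rw [h7, mul_one] at hc
    have hng : i'.1 = ng i.1 := by
      apply Subtype.ext
      apply Fin.ext
      show (i'.1.1 : ℕ) = (d - (i.1.1 : ℕ)) % d
      rw [Nat.mod_eq_of_lt (by omega)]
      omega
    have h10 := (hpn i.1).2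
    rcases hdef i.1 with h | h
    · exact i.2 h
    · rw [← hng] at h10
      have := i'.2
      omega)
  have hne : ∀ s : Idx d μ, pn d μ (s.r : ℕ) ≠ 0 := by
    intro s
    have := (hidx ⟨s.r, s.cop⟩ (s.k : ℕ)).mpr ⟨s, rfl, rfl⟩
    intro h
    have h' : pn d μ ((⟨s.r, s.cop⟩ : Un d).1 : ℕ) = 0 := h
    omega
  let ρ : Idx d μ → I' := fun s => ⟨⟨s.r, s.cop⟩, hne s⟩
  refine hQC (Idx d μ) L hL.lat (fun s => ∑ g, (q g : ℂ) * χ (ρ s) g) (fun s => hq (ρ s)) ?_
  intro w hw
  refine ⟨∏ g, (q g).den, Finset.prod_ne_zero_iff.mpr (fun g _ => (q g).den_nz), ?_⟩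
  have hz : ∀ g, ∃ z : ℤ, ((∏ g, (q g).den : ℕ) : ℂ) * (q g : ℂ) = (z : ℂ) := by
    intro g
    obtain ⟨m, hm⟩ := Finset.dvd_prod_of_mem (fun g => (q g).den) (Finset.mem_univ g)
    refine ⟨(m : ℤ) * (q g).num, ?_⟩
    have h1 : ((q g).den : ℚ) * q g = (q g).num := by
      rw [mul_comm]; exact Rat.mul_den_eq_num (q g)
    have h2 : ((q g).den : ℂ) * (q g : ℂ) = ((q g).num : ℂ) := by exact_mod_cast h1
    rw [hm]
    push_cast
    rw [← h2]
    ring
  choose z hz using hz
  have hsum : (∏ g, (q g).den) • (fun s => (∑ g, (q g : ℂ) * χ (ρ s) g) * w s)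
      = ∑ g, z g • (fun s => χ (ρ s) g * w s) := by
    funext s
    simp only [Pi.smul_apply, Finset.sum_apply, nsmul_eq_mul, zsmul_eq_mul]
    rw [Finset.sum_mul, Finset.mul_sum]
    refine Finset.sum_congr rfl (fun g _ => ?_)
    have h3 : (((z g : ℤ) : Idx d μ → ℂ) * fun s => χ (ρ s) g * w s) s = (z g : ℂ) * (χ (ρ s) g * w s) := by
      simp [Pi.mul_apply]
    rw [h3, ← hz g]
    ring
  rw [hsum]
  refine sum_mem (fun g _ => L.zsmul_mem ?_ (z g))
  have h := YDF_iter d μ b L hL (Multiplicative.toAdd g).val w hw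
  have e : (fun s : Idx d μ => zt d ^ ((s.r : ℕ) * (Multiplicative.toAdd g).val) * w s) =
      fun s => χ (ρ s) g * w s := by
    funext s
    show _ = ZMod.stdAddChar (((s.r : ℕ) : ZMod d) * Multiplicative.toAdd g) * w s
    rw [YDF_zt]
    congr 2
    push_cast
    rw [ZMod.natCast_val, ZMod.cast_id]
  rw [e] at h
  exact h

end Pool.Agent.S5
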